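import Pool.Agent.L5helper74.RJ.Rel

/-!
# Random metrics: there is no relation on many lines

Adapted from the library file GLV.Pt3.
-/

set_option autoImplicit false
set_option linter.unusedSectionVars false

open Set Filter Topology MeasureTheory
open Pool.Agent.Y262.QE Pool.Agent.Y264.QR Pool.Agent.Y319.QR Q101.QG
open Pool.Agent.Q233.GLV

noncomputable section

namespace Pool.Agent.L5helper74.RJ

variable {M : Type} [MetricSpace M] [CompactSpace M] [MeasurableSpace M] [BorelSpace M]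
  {μ : Measure M} [IsFiniteMeasure μ] {H : Type} [NormedAddCommGroup H] [InnerProductSpace ℝ H]
  {i : H →L[ℝ] Lp ℝ 2 μ} {a : H →L[ℝ] H →L[ℝ] ℝ} {b : C(M, ℝ) → H →L[ℝ] H →L[ℝ] ℝ}

lemma dirs2 (φ : C(M, ℝ)) {S : Set C(M, ℝ)} (hSd : Dense S) (h : ℕ → C(M, ℝ)) :
    ∃ g : ℕ → C(M, ℝ), (∀ n, g n ∈ S) ∧ Tendsto (fun n => ‖g n * ex φ - h n‖) atTop (𝓝 0) := by
  have hGe : ∀ n, h n * ex (-φ) * ex φ = h n := by
    intro n
    ext x
    simp only [Pool.Agent.Q233.GLV.ex, ContinuousMap.mul_apply, ContinuousMap.coe_mk,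
      ContinuousMap.neg_apply]
    rw [mul_assoc, ← Real.exp_add]
    simp
  have hden : ∀ n : ℕ, ∃ y ∈ S, ‖y - h n * ex (-φ)‖ ≤ 1 / ((n : ℝ) + 1) := by
    intro n
    obtain ⟨y, hyS, hy⟩ := Metric.mem_closure_iff.1 (hSd (h n * ex (-φ))) (1 / ((n : ℝ) + 1))
      (by positivity)
    rw [dist_comm, dist_eq_norm] at hy
    exact ⟨y, hyS, hy.le⟩
  choose y hyS hy using hden
  refine ⟨y, hyS, ?_⟩
  have h1 : Tendsto (fun n : ℕ => 1 / ((n : ℝ) + 1) * ‖ex φ‖) atTop (𝓝 0) := by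
    have h2 := (tendsto_one_div_add_atTop_nhds_zero_nat (𝕜 := ℝ)).mul_const ‖ex φ‖
    rwa [zero_mul] at h2
  refine squeeze_zero (fun _ => norm_nonneg _) (fun n => ?_) h1
  have e1 : y n * ex φ - h n = (y n - h n * ex (-φ)) * ex φ := by
    rw [sub_mul, hGe]
  rw [e1]
  exact (norm_mul_le _ _).trans (mul_le_mul_of_nonneg_right (hy n) (norm_nonneg _))

theorem core2 [CompleteSpace H] (hS : Sf μ i a) (hB : IsB μ i b) {φ : C(M, ℝ)} {e : ℕ → H}
    {E : ℕ → ℝ} (hE : Eg a (b φ) e E) {J : Finset ℕ} {j₀ : ℕ} (hJ0 : 0 ∈ J) (hj₀ : j₀ ∉ J)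
    (hs : ∀ j ∈ insert j₀ J, j ≠ 0 → Sim a b φ j)
    {S : Set C(M, ℝ)} (hSd : Dense S) {κ : ℕ → C(M, ℝ)}
    (hκ : ∀ l ∈ J, ∀ j ∈ J, pw μ i φ (κ l) e j = if l = j then 1 else 0) {γ : ℕ → ℝ}
    (hγ : ∀ h : C(M, ℝ), pw μ i φ h e j₀ = ∑ j ∈ J, γ j * pw μ i φ h e j)
    (hdep : ∀ y ∈ S, ∃ᶠ t in 𝓝[≠] (0 : ℝ), ∀ (e' : ℕ → H) (E' : ℕ → ℝ),
      Eg a (b (φ + t • y)) e' E' → ∃ γ' : ℕ → ℝ, ∀ h : C(M, ℝ),
        pw μ i (φ + t • y) h e' j₀ = ∑ j ∈ J, γ' j * pw μ i (φ + t • y) h e' j)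
    {Ω : (M → ℝ) → ℝ} {h : ℕ → C(M, ℝ)} {C : ℝ} {w : ℕ → H → H} (hO : Osc μ i a b Ω h C w) :
    E j₀ * Ω (fun x => (i (e j₀) x) ^ 2) =
      ∑ j ∈ J, (if j = 0 then 0 else γ j * (E j * Ω fun x => (i (e j) x) ^ 2)) := by
  obtain ⟨hF, hb, -⟩ := forms μ i a b hS hB
  have hmm : ∀ j, Ev a (b φ) j = E j := fun j =>
    Pool.Agent.Y592.QE.mm H a (b φ) (hF φ) e E hE j
  obtain ⟨y, hy1, hy2⟩ := dirs hS hB (ContinuousLinearMap.id ℝ C(M, ℝ))
    (Function.Surjective.denseRange fun x => ⟨x, rfl⟩) (κ := κ) hκ hO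
  simp only [ContinuousLinearMap.id_apply] at hy1 hy2
  obtain ⟨d, hdS, hd2⟩ := dirs2 φ hSd h
  have hE0 : ∀ j, 0 ≤ E j := E_nonneg (hF φ) hE
  have hC0 := hO.C0
  -- the form of the direction
  obtain ⟨k, hk⟩ : ∃ k : ℕ → H →L[ℝ] H →L[ℝ] ℝ, k = fun n => kf b (y n * ex φ) := ⟨_, rfl⟩
  obtain ⟨kd, hkd⟩ : ∃ kd : ℕ → H →L[ℝ] H →L[ℝ] ℝ, kd = fun n => kf b (d n * ex φ) := ⟨_, rfl⟩
  obtain ⟨δ, hδ⟩ : ∃ δ : ℕ → ℝ, δ = fun n => ‖y n * ex φ - h n‖ + ‖d n * ex φ - h n‖ := ⟨_, rfl⟩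
  have hδ0 : ∀ n, 0 ≤ δ n := fun n => by rw [hδ]; exact add_nonneg (norm_nonneg _) (norm_nonneg _)
  have hδt : Tendsto δ atTop (𝓝 0) := by
    rw [hδ]
    have := hy2.add hd2
    rwa [add_zero] at this
  have hgen : ∀ (f : C(M, ℝ)) n, ‖f - h n‖ ≤ δ n → ∀ u v,
      |kf b f u v - kf b (h n) u v| ≤ δ n * ‖i u‖ * ‖i v‖ := by
    intro f n hf u v
    have h1 := kf_lin hB f (h n) 1 (-1) u v
    have h2 : (1 : ℝ) • f + (-1 : ℝ) • h n = f - h n := by
      rw [one_smul, neg_smul, one_smul, sub_eq_add_neg]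
    rw [h2] at h1
    have h3 : kf b f u v - kf b (h n) u v = kf b (f - h n) u v := by
      rw [h1]; ring
    rw [h3]
    exact kf_bdi hB (hδ0 n) (fun x => ((f - h n).norm_coe_le_norm x).trans hf) u v
  have hdi : ∀ n u v, |k n u v - kf b (h n) u v| ≤ δ n * ‖i u‖ * ‖i v‖ := by
    intro n u v
    rw [hk]
    refine hgen _ n ?_ u v
    rw [hδ]
    have := norm_nonneg (d n * ex φ - h n)
    simp only
    linarith
  have hdid : ∀ n u v, |kd n u v - kf b (h n) u v| ≤ δ n * ‖i u‖ * ‖i v‖ := by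
    intro n u v
    rw [hkd]
    refine hgen _ n ?_ u v
    rw [hδ]
    have := norm_nonneg (y n * ex φ - h n)
    simp only
    linarith
  have hup : ∀ n u v, δ n * ‖i u‖ * ‖i v‖ ≤ δ n * ‖u‖ * ‖v‖ := by
    intro n u v
    exact mul_le_mul (mul_le_mul_of_nonneg_left (i_le hS u) (hδ0 n)) (i_le hS v) (norm_nonneg _)
      (mul_nonneg (hδ0 n) (norm_nonneg _))
  have hdn : ∀ n u v, |k n u v - kf b (h n) u v| ≤ δ n * ‖u‖ * ‖v‖ := fun n u v =>
    (hdi n u v).trans (hup n u v)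
  have hdnd : ∀ n u v, |kd n u v - kf b (h n) u v| ≤ δ n * ‖u‖ * ‖v‖ := fun n u v =>
    (hdid n u v).trans (hup n u v)
  -- the diagonal entries of the direction
  have hdiag : ∀ v : H, Tendsto (fun n => kd n v v) atTop (𝓝 0) := by
    intro v
    have h1 : Tendsto (fun n => kd n v v - kf b (h n) v v) atTop (𝓝 0) := by
      have h2 : Tendsto (fun n => δ n * ‖v‖ * ‖v‖) atTop (𝓝 0) := by
        have := (hδt.mul_const ‖v‖).mul_const ‖v‖
        simpa using this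
      refine squeeze_zero_norm (fun n => ?_) h2
      rw [Real.norm_eq_abs]
      exact hdnd n v v
    have h2 := h1.add (hO.weak v v)
    rw [add_zero] at h2
    refine h2.congr fun n => ?_
    ring
  have hbw : ∀ n v ψ, |b φ (w n v) ψ| ≤ ‖ex φ‖ * (C * ((n : ℝ) + 1)⁻¹ * ‖v‖) * ‖ψ‖ := by
    intro n v ψ
    rw [← kf_ex hB]
    refine (kf_bdi hB (norm_nonneg (ex φ)) (fun x => (ex φ).norm_coe_le_norm x) _ _).trans ?_
    exact mul_le_mul (mul_le_mul_of_nonneg_left (hO.wn n v) (norm_nonneg _)) (i_le hS ψ)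
      (norm_nonneg _) (mul_nonneg (norm_nonneg _) ((norm_nonneg _).trans (hO.wn n v)))
  have hinvt : Tendsto (fun n : ℕ => ((n : ℝ) + 1)⁻¹) atTop (𝓝 0) := by
    have := tendsto_one_div_add_atTop_nhds_zero_nat (𝕜 := ℝ)
    simpa [one_div] using this
  have hbwt : ∀ v : H, Tendsto (fun n : ℕ => ‖ex φ‖ * (C * ((n : ℝ) + 1)⁻¹ * ‖v‖)) atTop (𝓝 0) := by
    intro v
    have := ((hinvt.const_mul C).mul_const ‖v‖).const_mul ‖ex φ‖
    simpa using this
  have hk0 : ∀ n, ∀ j ∈ insert j₀ J, j ≠ 0 → k n (e j) (e j) = 0 := by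
    intro n j hj hj0
    have h1 : pw μ i φ (y n) e j = k n (e j) (e j) := by
      unfold pw
      rw [if_neg hj0, kap_kf hB, hk]
    rw [← h1]
    rcases Finset.mem_insert.1 hj with h | h
    · rw [h, hγ]
      exact Finset.sum_eq_zero fun l hl => by rw [hy1 n l hl, mul_zero]
    · exact hy1 n j h
  -- constants
  have hexC : ∀ j : ℕ, ∃ Cj : ℝ, 0 < Cj ∧ (j ∈ insert j₀ J → j ≠ 0 → ∀ (g : H) (ε : ℝ), 0 ≤ ε →
      (∀ ψ, |a g ψ - E j * b φ g ψ| ≤ ε * ‖ψ‖) → ‖g‖ ≤ Cj * (ε + |b φ g (e j)|)) := by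
    intro j
    by_cases hj : j ∈ insert j₀ J ∧ j ≠ 0
    · obtain ⟨Cj, h1, h2⟩ := inv (hF φ) hE (j := j) (fun l hl => by
        have := hs j hj.1 hj.2 l hl
        rwa [hmm, hmm] at this)
      exact ⟨Cj, h1, fun _ _ => h2⟩
    · exact ⟨1, one_pos, fun h3 h4 => absurd ⟨h3, h4⟩ hj⟩
  choose Cc hCc0 hCc using hexC
  obtain ⟨T, hT⟩ : ∃ T : ℝ, T = (2 * C + 1) * (‖e j₀‖ * (2 * Cc j₀ + 1) +
    ∑ j ∈ J, |γ j| * (‖e j‖ * (2 * Cc j + 1))) := ⟨_, rfl⟩
  have hT0 : 0 ≤ T := by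
    rw [hT]
    have h1 := hCc0 j₀
    have h2 : 0 ≤ ∑ j ∈ J, |γ j| * (‖e j‖ * (2 * Cc j + 1)) :=
      Finset.sum_nonneg fun j _ => by
        have := hCc0 j
        positivity
    positivity
  -- the limit of the values
  have hval : ∀ j ∈ insert j₀ J, j ≠ 0 → Tendsto (fun n => k n (e j) (E j • w n (e j))) atTop
      (𝓝 (E j * Ω fun x => (i (e j) x) ^ 2)) := by
    intro j _ _
    have h1 : Tendsto (fun n => k n (e j) (w n (e j)) - kf b (h n) (e j) (w n (e j))) atTop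
        (𝓝 0) := by
      have h2 : Tendsto (fun n : ℕ => δ n * ‖i (e j)‖ * (C * ((n : ℝ) + 1)⁻¹ * ‖e j‖)) atTop
          (𝓝 0) := by
        have := (hδt.mul_const ‖i (e j)‖).mul ((hinvt.const_mul C).mul_const ‖e j‖)
        simpa using this
      refine squeeze_zero_norm (fun n => ?_) h2
      rw [Real.norm_eq_abs]
      refine (hdi n _ _).trans ?_
      exact mul_le_mul_of_nonneg_left (hO.wn n (e j)) (mul_nonneg (hδ0 n) (norm_nonneg _))
    have h2 := (h1.add (hO.lim (e j))).const_mul (E j)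
    rw [zero_add] at h2
    refine h2.congr fun n => ?_
    rw [sub_add_cancel, map_smul, smul_eq_mul]
  have hj00 : j₀ ≠ 0 := fun h => hj₀ (h ▸ hJ0)
  have hlim : Tendsto (fun n => |k n (e j₀) (E j₀ • w n (e j₀)) -
      ∑ j ∈ J, (if j = 0 then 0 else γ j * k n (e j) (E j • w n (e j)))|) atTop
      (𝓝 |E j₀ * Ω (fun x => (i (e j₀) x) ^ 2) -
      ∑ j ∈ J, (if j = 0 then 0 else γ j * (E j * Ω fun x => (i (e j) x) ^ 2))|) := by
    refine ((hval j₀ (Finset.mem_insert_self _ _) hj00).sub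
      (tendsto_finsetSum _ fun j hj => ?_)).abs
    by_cases hj0 : j = 0
    · simp only [hj0, if_true]
      exact tendsto_const_nhds
    · simp only [hj0, if_false]
      exact (hval j (Finset.mem_insert_of_mem hj) hj0).const_mul _
  -- the estimate
  have hmain : ∀ ε : ℝ, 0 < ε → |E j₀ * Ω (fun x => (i (e j₀) x) ^ 2) -
      ∑ j ∈ J, (if j = 0 then 0 else γ j * (E j * Ω fun x => (i (e j) x) ^ 2))| ≤ T * ε := by
    intro ε hε
    refine le_of_tendsto hlim ?_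
    -- for all j
    have hj : ∀ j ∈ insert j₀ J, ∀ᶠ n in atTop, j ≠ 0 →
        (∀ ψ, |E j * (kd n (e j) ψ - kd n (e j) (e j) * b φ (e j) ψ) -
          (a (E j • w n (e j)) ψ - E j * b φ (E j • w n (e j)) ψ)| ≤ ε * ‖ψ‖) ∧
        |2 * b φ (E j • w n (e j)) (e j) + kd n (e j) (e j)| ≤ ε := by
      intro j hj
      obtain ⟨ε', hε'⟩ : ∃ ε' : ℝ, ε' = ε / (4 * (E j + 1)) := ⟨_, rfl⟩
      have hEj := hE0 j
      have hε'0 : 0 < ε' := by rw [hε']; positivity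
      have h1 := hO.res (e j) ε' hε'0
      have h2 : Tendsto (fun n => δ n * ‖e j‖) atTop (𝓝 0) := by
        have := hδt.mul_const ‖e j‖
        rwa [zero_mul] at this
      have h3 : Tendsto (fun n : ℕ => (E j + 1) * (‖ex φ‖ * (C * ((n : ℝ) + 1)⁻¹ * ‖e j‖)))
          atTop (𝓝 0) := by
        have := (hbwt (e j)).const_mul (E j + 1)
        rwa [mul_zero] at this
      have h4 : Tendsto (fun n : ℕ => 2 * E j * (‖ex φ‖ * (C * ((n : ℝ) + 1)⁻¹ * ‖e j‖) * ‖e j‖))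
          atTop (𝓝 0) := by
        have := ((hbwt (e j)).mul_const ‖e j‖).const_mul (2 * E j)
        simpa using this
      have h5 : Tendsto (fun n => |kd n (e j) (e j)| * (‖ex φ‖ * ‖e j‖)) atTop (𝓝 0) := by
        have h6 := (hdiag (e j)).abs
        rw [abs_zero] at h6
        have := h6.mul_const (‖ex φ‖ * ‖e j‖)
        rwa [zero_mul] at this
      have h6 : Tendsto (fun n => |kd n (e j) (e j)|) atTop (𝓝 0) := by
        have h6 := (hdiag (e j)).abs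
        rwa [abs_zero] at h6
      filter_upwards [h1, h2.eventually (eventually_lt_nhds hε'0),
        h3.eventually (eventually_lt_nhds hε'0),
        h4.eventually (eventually_lt_nhds (show (0 : ℝ) < ε / 2 by positivity)),
        h5.eventually (eventually_lt_nhds hε'0),
        h6.eventually (eventually_lt_nhds (show (0 : ℝ) < ε / 2 by positivity))]
        with n h1 h2 h3 h4 h5 h6 hj0
      constructor
      · intro ψ
        have e1 : E j * (kd n (e j) ψ - kd n (e j) (e j) * b φ (e j) ψ) -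
            (a (E j • w n (e j)) ψ - E j * b φ (E j • w n (e j)) ψ) =
            E j * ((kd n (e j) ψ - kf b (h n) (e j) ψ) +
              (kf b (h n) (e j) ψ - a (w n (e j)) ψ) + E j * b φ (w n (e j)) ψ -
              kd n (e j) (e j) * b φ (e j) ψ) := by
          simp only [map_smul, _root_.smul_apply, smul_eq_mul]
          ring
        rw [e1, abs_mul, abs_of_nonneg hEj]
        have q1 : |kd n (e j) ψ - kf b (h n) (e j) ψ| ≤ ε' * ‖ψ‖ :=
          (hdnd n _ _).trans (mul_le_mul_of_nonneg_right h2.le (norm_nonneg _))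
        have q2 := h1 ψ
        have q3 : |E j * b φ (w n (e j)) ψ| ≤ ε' * ‖ψ‖ := by
          rw [abs_mul, abs_of_nonneg hEj]
          calc E j * |b φ (w n (e j)) ψ| ≤
              (E j + 1) * (‖ex φ‖ * (C * ((n : ℝ) + 1)⁻¹ * ‖e j‖) * ‖ψ‖) :=
                mul_le_mul (by linarith) (hbw n _ _) (abs_nonneg _) (by positivity)
            _ = (E j + 1) * (‖ex φ‖ * (C * ((n : ℝ) + 1)⁻¹ * ‖e j‖)) * ‖ψ‖ := by ring
            _ ≤ ε' * ‖ψ‖ := mul_le_mul_of_nonneg_right h3.le (norm_nonneg _)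
        have q5 : |kd n (e j) (e j) * b φ (e j) ψ| ≤ ε' * ‖ψ‖ := by
          rw [abs_mul]
          have q6 : |b φ (e j) ψ| ≤ ‖ex φ‖ * ‖e j‖ * ‖ψ‖ := by
            rw [← kf_ex hB]
            refine (kf_bdi hB (norm_nonneg (ex φ)) (fun x => (ex φ).norm_coe_le_norm x) _ _).trans ?_
            exact mul_le_mul (mul_le_mul_of_nonneg_left (i_le hS _) (norm_nonneg _)) (i_le hS ψ)
              (norm_nonneg _) (by positivity)
          calc |kd n (e j) (e j)| * |b φ (e j) ψ| ≤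
              |kd n (e j) (e j)| * (‖ex φ‖ * ‖e j‖ * ‖ψ‖) :=
                mul_le_mul_of_nonneg_left q6 (abs_nonneg _)
            _ = |kd n (e j) (e j)| * (‖ex φ‖ * ‖e j‖) * ‖ψ‖ := by ring
            _ ≤ ε' * ‖ψ‖ := mul_le_mul_of_nonneg_right h5.le (norm_nonneg _)
        have q4 : |(kd n (e j) ψ - kf b (h n) (e j) ψ) +
              (kf b (h n) (e j) ψ - a (w n (e j)) ψ) + E j * b φ (w n (e j)) ψ -
              kd n (e j) (e j) * b φ (e j) ψ| ≤ 4 * ε' * ‖ψ‖ := by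
          have r1 := abs_add_le (kd n (e j) ψ - kf b (h n) (e j) ψ)
            (kf b (h n) (e j) ψ - a (w n (e j)) ψ)
          have r2 := abs_add_le ((kd n (e j) ψ - kf b (h n) (e j) ψ) +
            (kf b (h n) (e j) ψ - a (w n (e j)) ψ)) (E j * b φ (w n (e j)) ψ)
          have r3 := abs_sub ((kd n (e j) ψ - kf b (h n) (e j) ψ) +
              (kf b (h n) (e j) ψ - a (w n (e j)) ψ) + E j * b φ (w n (e j)) ψ)
              (kd n (e j) (e j) * b φ (e j) ψ)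
          linarith
        calc E j * _ ≤ (E j + 1) * (4 * ε' * ‖ψ‖) := by
              refine mul_le_mul (by linarith) q4 (abs_nonneg _) (by positivity)
          _ = ε * ‖ψ‖ := by
              rw [hε']
              field_simp
      · refine (abs_add_le _ _).trans ?_
        have q7 : |2 * b φ (E j • w n (e j)) (e j)| ≤ ε / 2 := by
          simp only [map_smul, _root_.smul_apply, smul_eq_mul]
          rw [← mul_assoc, abs_mul, abs_of_nonneg (by positivity : 0 ≤ 2 * E j)]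
          refine le_trans ?_ h4.le
          exact mul_le_mul_of_nonneg_left (hbw n _ _) (by positivity)
        linarith
    have hjall : ∀ᶠ n in atTop, ∀ j ∈ insert j₀ J, j ≠ 0 →
        (∀ ψ, |E j * (kd n (e j) ψ - kd n (e j) (e j) * b φ (e j) ψ) -
          (a (E j • w n (e j)) ψ - E j * b φ (E j • w n (e j)) ψ)| ≤ ε * ‖ψ‖) ∧
        |2 * b φ (E j • w n (e j)) (e j) + kd n (e j) (e j)| ≤ ε := by
      rw [Finset.eventually_all]
      exact hj
    filter_upwards [hjall, hδt.eventually (eventually_lt_nhds one_pos)] with n hn hδ1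
    have hKg : ∀ (f : H →L[ℝ] H →L[ℝ] ℝ), (∀ u v, |f u v - kf b (h n) u v| ≤ δ n * ‖u‖ * ‖v‖) →
        ∀ u v, |f u v| ≤ (2 * C + 1) * ‖u‖ * ‖v‖ := by
      intro f hf u v
      calc |f u v| = |(f u v - kf b (h n) u v) + kf b (h n) u v| := by ring_nf
        _ ≤ |f u v - kf b (h n) u v| + |kf b (h n) u v| := abs_add_le _ _
        _ ≤ 1 * ‖u‖ * ‖v‖ + 2 * C * ‖u‖ * ‖v‖ := by
            refine add_le_add ((hf u v).trans ?_) (hO.bd n u v)
            exact mul_le_mul_of_nonneg_right (mul_le_mul_of_nonneg_right hδ1.le (norm_nonneg _))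
              (norm_nonneg _)
        _ = _ := by ring
    have hKk := hKg (k n) (hdn n)
    have hKd := hKg (kd n) (hdnd n)
    rw [hkd] at hn hKd
    rw [hk] at hKk ⊢
    have h1 := derrel2 hS hB hE hJ0 hj₀ hs (κ := κ) hκ hγ (g := d n) (g' := y n) (hy1 n)
      (hdep (d n) (hdS n))
      (s := fun j => E j • w n (e j)) hε (fun j hj hj0 => (hn j hj hj0).1)
      (fun j hj hj0 => (hn j hj hj0).2) (by positivity) hKd hKk hCc0 hCc
    refine h1.trans (le_of_eq ?_)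
    rw [hT]
    ring
  by_contra hne
  have hpos : 0 < |E j₀ * Ω (fun x => (i (e j₀) x) ^ 2) -
      ∑ j ∈ J, (if j = 0 then 0 else γ j * (E j * Ω fun x => (i (e j) x) ^ 2))| :=
    abs_pos.2 (sub_ne_zero.2 hne)
  set Z := |E j₀ * Ω (fun x => (i (e j₀) x) ^ 2) -
      ∑ j ∈ J, (if j = 0 then 0 else γ j * (E j * Ω fun x => (i (e j) x) ^ 2))| with hZ
  have h1 := hmain (Z / (2 * (T + 1))) (by positivity)
  have h2 : T * (Z / (2 * (T + 1))) ≤ Z / 2 := by
    rw [mul_div_assoc', div_le_div_iff₀ (by positivity) (by norm_num)]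
    nlinarith
  linarith

/-- **there is no relation on all lines** -/
theorem pt2 [CompleteSpace H] (hS : Sf μ i a) (hB : IsB μ i b) {φ : C(M, ℝ)} {e : ℕ → H}
    {E : ℕ → ℝ} (hE : Eg a (b φ) e E) {J : Finset ℕ} {j₀ : ℕ} (hJ0 : 0 ∈ J) (hj₀ : j₀ ∉ J)
    (hs : ∀ j ∈ insert j₀ J, j ≠ 0 → Sim a b φ j) (hpos : 0 < E j₀)
    {S : Set C(M, ℝ)} (hSd : Dense S) (hI : Ind μ i φ e J)
    (hdep : ∀ y ∈ S, ∃ᶠ t in 𝓝[≠] (0 : ℝ), ∀ (e' : ℕ → H) (E' : ℕ → ℝ),
      Eg a (b (φ + t • y)) e' E' → ∃ γ' : ℕ → ℝ, ∀ h : C(M, ℝ),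
        pw μ i (φ + t • y) h e' j₀ = ∑ j ∈ J, γ' j * pw μ i (φ + t • y) h e' j)
    {γ : ℕ → ℝ} (hγ : ∀ h : C(M, ℝ), pw μ i φ h e j₀ = ∑ j ∈ J, γ j * pw μ i φ h e j)
    {Fam : Set ((M → ℝ) → ℝ)} (hFam : ∀ Ω ∈ Fam, ∃ h C w, Osc μ i a b Ω h C w)
    (htot : ∀ (c : ℕ → ℝ) (J' : Finset ℕ), (∀ Ω ∈ Fam,
      ∑ j ∈ J', c j * Ω (fun x => (i (e j) x) ^ 2) = 0) →
      ∀ h : C(M, ℝ), ∑ j ∈ J', c j * kap μ i h φ (e j) = 0) : False := by
  obtain ⟨hF, hb, -⟩ := forms μ i a b hS hB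
  have hmm : ∀ j, Ev a (b φ) j = E j := fun j =>
    Pool.Agent.Y592.QE.mm H a (b φ) (hF φ) e E hE j
  obtain ⟨κ, hκ⟩ := dual hS hB hI (ContinuousLinearMap.id ℝ C(M, ℝ))
    (Function.Surjective.denseRange fun x => ⟨x, rfl⟩)
  simp only [ContinuousLinearMap.id_apply] at hκ
  have hj00 : j₀ ≠ 0 := fun h => hj₀ (h ▸ hJ0)
  obtain ⟨c, hc⟩ : ∃ c : ℕ → ℝ, c = fun j => if j = j₀ then E j₀ else
    if j = 0 then 0 else -(γ j * E j) := ⟨_, rfl⟩
  have hsum : ∀ f : ℕ → ℝ, ∑ j ∈ insert j₀ J, c j * f j = E j₀ * f j₀ -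
      ∑ j ∈ J, (if j = 0 then 0 else γ j * (E j * f j)) := by
    intro f
    rw [Finset.sum_insert hj₀, sub_eq_add_neg, ← Finset.sum_neg_distrib]
    congr 1
    · rw [hc]; simp
    · refine Finset.sum_congr rfl fun j hj => ?_
      have h1 : j ≠ j₀ := fun h => hj₀ (h ▸ hj)
      rw [hc]
      simp only [h1, if_false]
      split_ifs
      · ring
      · ring
  have h1 := htot c (insert j₀ J) (fun Ω hΩ => by
    obtain ⟨h, C, w, hO⟩ := hFam Ω hΩ
    rw [hsum (fun j => Ω fun x => (i (e j) x) ^ 2),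
      core2 hS hB hE hJ0 hj₀ hs hSd hκ hγ hdep hO, sub_self])
  have h2 : ∀ h : C(M, ℝ), E j₀ * kap μ i h φ (e j₀) -
      ∑ j ∈ J, (if j = 0 then 0 else γ j * (E j * kap μ i h φ (e j))) = 0 := by
    intro h
    rw [← hsum (fun j => kap μ i h φ (e j))]
    exact h1 h
  have h3 := hI (fun j => if j = 0 then E j₀ * γ 0 else γ j * (E j₀ - E j)) (fun h => by
    have h4 := h2 h
    have h5 := hγ h
    have h6 : pw μ i φ h e j₀ = kap μ i h φ (e j₀) := by
      unfold pw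
      rw [if_neg hj00]
    rw [← h6, h5, Finset.mul_sum, ← Finset.sum_sub_distrib] at h4
    rw [← h4]
    refine Finset.sum_congr rfl fun j _ => ?_
    by_cases hj0 : j = 0
    · simp only [hj0, if_true]
      ring
    · simp only [hj0, if_false]
      unfold pw
      rw [if_neg hj0]
      ring)
  have hγ0 : ∀ j ∈ J, γ j = 0 := by
    intro j hj
    have h4 := h3 j hj
    by_cases hj0 : j = 0
    · simp only [hj0, if_true] at h4
      rw [hj0]
      exact (mul_eq_zero.1 h4).resolve_left hpos.ne'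
    · simp only [hj0, if_false] at h4
      have h5 := hs j₀ (Finset.mem_insert_self _ _) hj00 j (fun h => hj₀ (h ▸ hj))
      rw [hmm, hmm] at h5
      exact (mul_eq_zero.1 h4).resolve_right (sub_ne_zero.2 h5.symm)
  have h7 := hγ 1
  rw [Finset.sum_eq_zero fun j hj => by rw [hγ0 j hj, zero_mul]] at h7
  unfold pw at h7
  rw [if_neg hj00, kap_kf hB, one_mul, kf_ex hB, hE.orth, if_pos rfl] at h7
  exact one_ne_zero h7

end Pool.Agent.L5helper74.RJ
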