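import Pool.Agent.L5helper74.RJ.Core

/-!
# Random metrics: the squares of the eigenfunctions are almost surely independent
-/

set_option autoImplicit false
set_option linter.unusedSectionVars false

open Set Filter Topology MeasureTheory
open Pool.Agent.Y262.QE Pool.Agent.Y264.QR Pool.Agent.Y319.QR Q101.QG
open Pool.Agent.Q233.GLV

noncomputable section

namespace Pool.Agent.L5helper74.RJ

variable {M : Type} [MetricSpace M] [CompactSpace M] [MeasurableSpace M] [BorelSpace M]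
  {μ : Measure M} [IsFiniteMeasure μ] {H : Type} [NormedAddCommGroup H] [InnerProductSpace ℝ H]
  {i : H →L[ℝ] Lp ℝ 2 μ} {a : H →L[ℝ] H →L[ℝ] ℝ} {b : C(M, ℝ) → H →L[ℝ] H →L[ℝ] ℝ}

/-- almost every point of a set is a limit of points of the set on the line through it -/
theorem ae_return [MeasurableSpace C(M, ℝ)] [BorelSpace C(M, ℝ)] (P : Measure C(M, ℝ))
    [IsProbabilityMeasure P] (h : C(M, ℝ)) (hac : ∀ t : ℝ, P.map (fun φ => φ + t • h) ≪ P)
    {Z : Set C(M, ℝ)} (hZ : MeasurableSet Z) :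
    ∀ᵐ φ ∂P, φ ∈ Z → ∃ᶠ t in 𝓝[≠] (0 : ℝ), φ + t • h ∈ Z := by
  obtain ⟨-, -, -, hcm4⟩ := Pool.Agent.Y689.QR.cm M (0 : Measure M)
  have hm : Measurable fun p : C(M, ℝ) × ℝ => p.1 + p.2 • h := by
    have h1 : Continuous fun p : C(M, ℝ) × ℝ => p.1 + p.2 • h := by fun_prop
    exact h1.measurable
  obtain ⟨A, hA⟩ : ∃ A : Set C(M, ℝ), A = Z ∩ ⋃ k : ℕ, {φ | volume
      {t : ℝ | |t| < 1 / ((k : ℝ) + 1) ∧ φ + t • h ∈ Z} = 0} := ⟨_, rfl⟩
  have hAm : MeasurableSet A := by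
    rw [hA]
    refine hZ.inter (MeasurableSet.iUnion fun k => ?_)
    have h1 : MeasurableSet {p : C(M, ℝ) × ℝ | |p.2| < 1 / ((k : ℝ) + 1) ∧ p.1 + p.2 • h ∈ Z} := by
      refine MeasurableSet.inter ?_ (hm hZ)
      exact measurableSet_lt (measurable_snd.abs) measurable_const
    have h2 := measurable_measure_prodMk_left (ν := (volume : Measure ℝ)) h1
    exact h2 (measurableSet_singleton 0)
  have h0 : P A = 0 := by
    refine Pool.Agent.Y941.QR.qn C(M, ℝ) P (fun (t : ℝ) φ => φ + t • h) (hcm4 P h hac) A hAm ?_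
    intro φ
    rw [ae_iff]
    simp only [not_not]
    refine measure_null_of_locally_null _ fun t ht => ?_
    have ht' : φ + t • h ∈ A := ht
    rw [hA] at ht'
    obtain ⟨-, hk⟩ := ht'
    rw [mem_iUnion] at hk
    obtain ⟨k, hk⟩ := hk
    have hk' : volume {s : ℝ | |s| < 1 / ((k : ℝ) + 1) ∧ (φ + t • h) + s • h ∈ Z} = 0 := hk
    refine ⟨{s : ℝ | |s - t| < 1 / ((k : ℝ) + 1) ∧ φ + s • h ∈ Z}, ?_, ?_⟩
    · rw [mem_nhdsWithin]
      refine ⟨{s : ℝ | |s - t| < 1 / ((k : ℝ) + 1)}, ?_, ?_, ?_⟩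
      · exact isOpen_lt (by fun_prop) continuous_const
      · show |t - t| < 1 / ((k : ℝ) + 1)
        rw [sub_self, abs_zero]
        positivity
      · rintro s ⟨hs1, hs2⟩
        refine ⟨hs1, ?_⟩
        have hs3 : φ + s • h ∈ A := hs2
        rw [hA] at hs3
        exact hs3.1
    · have h1 : {s : ℝ | |s - t| < 1 / ((k : ℝ) + 1) ∧ φ + s • h ∈ Z} =
          (fun s => s - t) ⁻¹' {s : ℝ | |s| < 1 / ((k : ℝ) + 1) ∧ (φ + t • h) + s • h ∈ Z} := by
        ext s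
        simp only [mem_ofPred_eq, mem_preimage]
        have h2 : (φ + t • h) + (s - t) • h = φ + s • h := by
          rw [add_assoc, ← add_smul]
          congr 2
          ring
        rw [h2]
      rw [h1]
      have h3 : (fun s : ℝ => s - t) = fun s => s + (-t) := by
        funext s
        ring
      rw [h3, measure_preimage_add_right]
      exact hk'
  have h1 : ∀ᵐ φ ∂P, φ ∉ A := measure_eq_zero_iff_ae_notMem.1 h0
  filter_upwards [h1] with φ hφ hφZ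
  rw [hA] at hφ
  have h2 : ∀ k : ℕ, volume {t : ℝ | |t| < 1 / ((k : ℝ) + 1) ∧ φ + t • h ∈ Z} ≠ 0 := by
    intro k hk
    exact hφ ⟨hφZ, mem_iUnion.2 ⟨k, hk⟩⟩
  rw [Filter.frequently_iff]
  intro U hU
  rw [mem_nhdsWithin, ] at hU
  obtain ⟨W, hWo, hW0, hWU⟩ := hU
  obtain ⟨ε, hε, hball⟩ := Metric.isOpen_iff.1 hWo 0 hW0
  obtain ⟨k, hk⟩ := exists_nat_one_div_lt hε
  have h3 : ¬ {t : ℝ | |t| < 1 / ((k : ℝ) + 1) ∧ φ + t • h ∈ Z} ⊆ {0} := by
    intro hsub
    exact h2 k (measure_mono_null hsub (measure_singleton 0))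
  rw [not_subset] at h3
  obtain ⟨t, ⟨ht1, ht2⟩, ht3⟩ := h3
  refine ⟨t, hWU ⟨hball ?_, ht3⟩, ht2⟩
  rw [Metric.mem_ball, Real.dist_eq, sub_zero]
  exact ht1.trans hk

/-- **almost surely the squares of the eigenfunctions and the constants are independent** -/
theorem good_ae [MeasurableSpace C(M, ℝ)] [BorelSpace C(M, ℝ)] [CompleteSpace H] (hS : Sf μ i a)
    (hB : IsB μ i b) (hW : Wl μ a b) (hA : ∀ φ : C(M, ℝ), 0 < ∫ x, Real.exp (φ x) ∂μ)
    (P : Measure C(M, ℝ)) [IsProbabilityMeasure P] {V : Set C(M, ℝ)} (hVc : V.Countable)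
    (hV : Dense V) (hac : ∀ h ∈ V, ∀ t : ℝ, P.map (fun φ => φ + t • h) ≪ P)
    {Fa : Set ((M → ℝ) → ℝ)} (hFam : ∀ Ω ∈ Fa, ∃ h C w, Osc μ i a b Ω h C w)
    (htot : ∀ (φ : C(M, ℝ)) (e : ℕ → H) (c : ℕ → ℝ) (J' : Finset ℕ), (∀ Ω ∈ Fa,
      ∑ j ∈ J', c j * Ω (fun x => (i (e j) x) ^ 2) = 0) →
      ∀ h : C(M, ℝ), ∑ j ∈ J', c j * kap μ i h φ (e j) = 0) (J₁ : Finset ℕ) :
    (∀ j ∈ J₁, j ≠ 0 ∧ ∀ φ, 0 < Ev a (b φ) j) →
      ∀ᵐ φ ∂P, φ ∈ GoodS μ i a b (insert 0 J₁) := by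
  obtain ⟨hF, hb, -⟩ := forms μ i a b hS hB
  choose e E hE using fun φ : C(M, ℝ) => tSp H a (b φ) (hF φ)
  have hmm : ∀ φ j, Ev a (b φ) j = E φ j := fun φ j =>
    Pool.Agent.Y592.QE.mm H a (b φ) (hF _) (e φ) (E φ) (hE φ) j
  have hVs : Dense (Submodule.span ℝ V : Set C(M, ℝ)) := hV.mono Submodule.subset_span
  -- simplicity
  have hsim : ∀ᵐ φ ∂P, ∀ j, 0 < Ev a (b φ) j → Sim a b φ j := by
    have h1 : ∀ᵐ φ ∂P, ∀ h ∈ V, Pool.Agent.Q233.RSP.Dif a b h φ := by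
      rw [ae_ball_iff hVc]
      intro h hh
      exact Pool.Agent.Q233.RSP.ae_dif hS hB hW e E hE P h (hac h hh)
    filter_upwards [h1] with φ hφ j hj l hl heq
    rw [hmm, hmm] at heq
    rw [hmm] at hj
    exact Pool.Agent.Q233.RSP.simple hS hB V hVs hφ (hE φ) (p := j) (q := l) hl.symm heq.symm hj
  induction J₁ using Finset.induction_on with
  | empty =>
    intro _
    refine Eventually.of_forall fun φ => ?_
    refine ⟨fun j hj hj0 => ?_, fun e E _ c hc j hj => ?_⟩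
    · simp only [Finset.mem_insert, Finset.notMem_empty, or_false] at hj
      exact absurd hj hj0
    · simp only [Finset.mem_insert, Finset.notMem_empty, or_false] at hj
      have h2 := hc 1
      simp only [insert_empty_eq, Finset.sum_singleton, pw, if_true] at h2
      have h3 : ∫ y, (1 : C(M, ℝ)) y * Real.exp (φ y) ∂μ = ∫ y, Real.exp (φ y) ∂μ := by
        refine integral_congr_ae (Eventually.of_forall fun y => ?_)
        simp
      rw [h3] at h2
      rw [hj]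
      exact (mul_eq_zero.1 h2).resolve_right (hA φ).ne'
  | insert j₀ J₁ hj₀ ih =>
    intro hJ
    have hd := ih fun j hj => hJ j (Finset.mem_insert_of_mem hj)
    have hj₀J := hJ j₀ (Finset.mem_insert_self _ _)
    obtain ⟨Z, hZ⟩ : ∃ Z : Set C(M, ℝ), Z = GoodS μ i a b (insert 0 J₁) \
      GoodS μ i a b (insert 0 (insert j₀ J₁)) := ⟨_, rfl⟩
    have hZm : MeasurableSet Z := by
      rw [hZ]
      exact (good_open hS hB _).measurableSet.diff (good_open hS hB _).measurableSet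
    have hret : ∀ᵐ φ ∂P, ∀ h ∈ V, φ ∈ Z → ∃ᶠ t in 𝓝[≠] (0 : ℝ), φ + t • h ∈ Z := by
      rw [ae_ball_iff hVc]
      intro h hh
      exact ae_return P h (hac h hh) hZm
    have hj₀' : j₀ ∉ insert 0 J₁ := by
      rw [Finset.mem_insert, not_or]
      exact ⟨hj₀J.1, hj₀⟩
    filter_upwards [hd, hsim, hret] with φ hφd hφs hφr
    by_contra hcon
    have hφZ : φ ∈ Z := by
      rw [hZ]
      exact ⟨hφd, hcon⟩
    have hsim' : ∀ j ∈ insert j₀ (insert 0 J₁), j ≠ 0 → Sim a b φ j := by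
      intro j hj hj0
      refine hφs j ?_
      rcases Finset.mem_insert.1 hj with h | h
      · rw [h]; exact hj₀J.2 _
      · rcases Finset.mem_insert.1 h with h | h
        · exact absurd h hj0
        · exact (hJ j (Finset.mem_insert_of_mem h)).2 _
    have hsimo : ∀ᶠ ψ in 𝓝 φ, ∀ j ∈ insert j₀ (insert 0 J₁), j ≠ 0 → Sim a b ψ j := by
      rw [Finset.eventually_all]
      intro j hj
      by_cases hj0 : j = 0
      · exact Eventually.of_forall fun ψ h => absurd hj0 h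
      · filter_upwards [sim_open hS hB (hsim' j hj hj0)] with ψ hψ _
        exact hψ
    have hrelg : ∀ ψ ∈ Z, (∀ j ∈ insert j₀ (insert 0 J₁), j ≠ 0 → Sim a b ψ j) →
        ∀ (e' : ℕ → H) (E' : ℕ → ℝ), Eg a (b ψ) e' E' → ∃ γ' : ℕ → ℝ, ∀ h : C(M, ℝ),
        pw μ i ψ h e' j₀ = ∑ j ∈ insert 0 J₁, γ' j * pw μ i ψ h e' j := by
      intro ψ hψ hψs e' E' hE'
      rw [hZ] at hψ
      refine rel hj₀' (fun hI => hψ.2 ⟨?_, fun e'' E'' hE'' => ?_⟩) (hψ.1.2 e' E' hE')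
      · intro j hj hj0
        rw [Finset.insert_comm] at hj
        exact hψs j hj hj0
      · rw [Finset.insert_comm]
        exact ind_congr hS hB hψs hE' hE'' hI
    obtain ⟨γ, hγ⟩ := hrelg φ hφZ hsim' (e φ) (E φ) (hE φ)
    refine pt2 hS hB (hE φ) (Finset.mem_insert_self 0 J₁) hj₀' hsim'
      (by rw [← hmm]; exact hj₀J.2 _) hV (hφd.2 _ _ (hE φ)) (fun y hy => ?_) hγ hFam
      (htot φ (e φ))
    have h1 := hφr y hy hφZ
    have h2 : ∀ᶠ t in 𝓝[≠] (0 : ℝ), ∀ j ∈ insert j₀ (insert 0 J₁), j ≠ 0 →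
        Sim a b (φ + t • y) j := by
      have h3 : Tendsto (fun t : ℝ => φ + t • y) (𝓝 0) (𝓝 φ) := by
        have h4 : Continuous fun t : ℝ => φ + t • y := by fun_prop
        have h5 := h4.tendsto 0
        rwa [zero_smul, add_zero] at h5
      exact (h3.mono_left nhdsWithin_le_nhds).eventually hsimo
    refine (h1.and_eventually h2).mono fun t ht e' E' hE' => ?_
    exact hrelg _ ht.1 ht.2 e' E' hE'

end Pool.Agent.L5helper74.RJ
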