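import Mathlib

/-!
# Expanding maps and null sets, several variables
-/

set_option autoImplicit false

open Set Filter Topology MeasureTheory

noncomputable section

namespace Pool.Agent.L5helper74.RJ

/-- a set on which `g` is expanding and whose image is null is null -/
lemma null_of_anti {n : ℕ} {g : (Fin n → ℝ) → (Fin n → ℝ)} {N S : Set (Fin n → ℝ)}
    (hN : volume N = 0) (hS : ∀ t ∈ S, g t ∈ N) (K : NNReal)
    (hK : ∀ s ∈ S, ∀ t ∈ S, dist s t ≤ K * dist (g s) (g t)) : volume S = 0 := by
  have hinj : InjOn g S := by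
    intro s hs t ht hst
    have h1 := hK s hs t ht
    rw [hst, dist_self, mul_zero] at h1
    exact dist_le_zero.1 h1
  set f : (Fin n → ℝ) → (Fin n → ℝ) := Function.invFunOn g S with hf
  have hfg : ∀ t ∈ S, f (g t) = t := fun t ht => hinj.leftInvOn_invFunOn ht
  have hL : LipschitzOnWith K f (g '' S) := by
    refine LipschitzOnWith.of_dist_le_mul ?_
    rintro _ ⟨s, hs, rfl⟩ _ ⟨t, ht, rfl⟩
    rw [hfg s hs, hfg t ht]
    exact hK s hs t ht
  have h1 : S ⊆ f '' (g '' S) := fun t ht => ⟨g t, ⟨t, ht, rfl⟩, hfg t ht⟩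
  have h2 := hL.hausdorffMeasure_image_le (d := (Fintype.card (Fin n) : ℝ)) (Nat.cast_nonneg _)
  rw [← hausdorffMeasure_pi_real] at hN ⊢
  have h3 : Measure.hausdorffMeasure (Fintype.card (Fin n) : ℝ) (g '' S) = 0 :=
    measure_mono_null (by rintro _ ⟨t, ht, rfl⟩; exact hS t ht) hN
  rw [h3, mul_zero] at h2
  exact measure_mono_null h1 (le_antisymm h2 bot_le)

/-- translations of a measure: closure of the directions of quasi-invariance -/
lemma qi_sum {F : Type} [NormedAddCommGroup F] [NormedSpace ℝ F] [MeasurableSpace F] [BorelSpace F]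
    (P : Measure F) {n : ℕ} (h : Fin n → F)
    (hac : ∀ m, ∀ t : ℝ, P.map (fun φ => φ + t • h m) ≪ P) (s : Fin n → ℝ) :
    P.map (fun φ => φ + ∑ m, s m • h m) ≪ P := by
  have key : ∀ J : Finset (Fin n), P.map (fun φ => φ + ∑ m ∈ J, s m • h m) ≪ P := by
    intro J
    induction J using Finset.induction_on with
    | empty =>
      simp only [Finset.sum_empty, add_zero]
      rw [Measure.map_id']
    | insert j J hj ih =>
      have h1 : (fun φ : F => φ + ∑ m ∈ insert j J, s m • h m) =
          (fun φ => φ + s j • h j) ∘ fun φ => φ + ∑ m ∈ J, s m • h m := by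
        funext φ
        rw [Finset.sum_insert hj, Function.comp_apply]
        abel
      have hm1 : Measurable fun φ : F => φ + s j • h j := by
        have : Continuous fun φ : F => φ + s j • h j := by fun_prop
        exact this.measurable
      have hm2 : Measurable fun φ : F => φ + ∑ m ∈ J, s m • h m := by
        have : Continuous fun φ : F => φ + ∑ m ∈ J, s m • h m := by fun_prop
        exact this.measurable
      rw [h1, ← Measure.map_map hm1 hm2]
      exact (ih.map hm1).trans (hac j (s j))
  exact key Finset.univ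

/-- sets which are null on every translate of a finite dimensional space are null -/
lemma qn_n {F : Type} [NormedAddCommGroup F] [NormedSpace ℝ F] [MeasurableSpace F] [BorelSpace F]
    [SecondCountableTopology F] (P : Measure F) [IsProbabilityMeasure P] {n : ℕ} (h : Fin n → F)
    (hac : ∀ m, ∀ t : ℝ, P.map (fun φ => φ + t • h m) ≪ P) {A : Set F} (hA : MeasurableSet A)
    (hnull : ∀ φ, ∀ᵐ s : Fin n → ℝ, φ + ∑ m, s m • h m ∉ A) : P A = 0 := by
  have hm : Measurable fun p : F × (Fin n → ℝ) => p.1 + ∑ m, p.2 m • h m := by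
    have h1 : Continuous fun p : F × (Fin n → ℝ) => p.1 + ∑ m, p.2 m • h m := by fun_prop
    exact h1.measurable
  obtain ⟨E, hE⟩ : ∃ E : Set (F × (Fin n → ℝ)), E = {p | p.1 + ∑ m, p.2 m • h m ∈ A} := ⟨_, rfl⟩
  have hEm : MeasurableSet E := by
    rw [hE]
    exact hm hA
  have h1 : (P.prod (volume : Measure (Fin n → ℝ))) E = 0 := by
    rw [Measure.prod_apply hEm, lintegral_eq_zero_iff (measurable_measure_prodMk_left hEm)]
    refine Eventually.of_forall fun φ => ?_
    have h2 := hnull φ
    rw [ae_iff] at h2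
    simp only [not_not] at h2
    show volume (Prod.mk φ ⁻¹' E) = 0
    rw [hE]
    exact h2
  rw [Measure.prod_apply_symm hEm,
    lintegral_eq_zero_iff (measurable_measure_prodMk_right hEm)] at h1
  obtain ⟨s, hs⟩ := h1.exists
  have hs' : P {φ | φ + ∑ m, s m • h m ∈ A} = 0 := by
    have h3 : P ((fun φ => (φ, s)) ⁻¹' E) = 0 := hs
    rw [hE] at h3
    exact h3
  have hms : ∀ s : Fin n → ℝ, Measurable fun φ : F => φ + ∑ m, s m • h m := fun s => by
    have : Continuous fun φ : F => φ + ∑ m, s m • h m := by fun_prop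
    exact this.measurable
  have h4 : P.map (fun φ => φ + ∑ m, s m • h m) A = 0 := by
    rw [Measure.map_apply (hms s) hA]
    exact hs'
  have h5 : P ≪ P.map (fun φ => φ + ∑ m, s m • h m) := by
    have h6 := (qi_sum P h hac (-s)).map (hms s)
    rw [Measure.map_map (hms s) (hms (-s))] at h6
    have h7 : ((fun φ : F => φ + ∑ m, s m • h m) ∘ fun φ => φ + ∑ m, (-s) m • h m) =
        fun φ => φ := by
      funext φ
      simp only [Function.comp_apply, Pi.neg_apply, neg_smul, Finset.sum_neg_distrib]
      abel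
    rw [h7, Measure.map_id'] at h6
    exact h6
  exact h5 h4

end Pool.Agent.L5helper74.RJ
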