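import Pool.Agent.L5helper74.RJ.Ae
import Pool.Agent.L5helper74.RJ.Null
import Pool.Agent.Q233.GLV.GTop

/-!
# Random metrics: the joint law of the levels
-/

set_option autoImplicit false
set_option linter.unusedSectionVars false

open Set Filter Topology MeasureTheory
open Pool.Agent.Y262.QE Pool.Agent.Y264.QR Pool.Agent.Y319.QR Q101.QG
open Pool.Agent.Q233.GLV

noncomputable section

namespace Pool.Agent.L5helper74.RJ

variable {M : Type} [MetricSpace M] [CompactSpace M] [MeasurableSpace M] [BorelSpace M]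
  {μ : Measure M} [IsFiniteMeasure μ] {H : Type} [NormedAddCommGroup H] [InnerProductSpace ℝ H]
  {i : H →L[ℝ] Lp ℝ 2 μ} {a : H →L[ℝ] H →L[ℝ] ℝ} {b : C(M, ℝ) → H →L[ℝ] H →L[ℝ] ℝ}

/-- strict differentiability of the tuples of levels, with a surjective derivative -/
theorem tu_strict [CompleteSpace H] (hS : Sf μ i a) (hB : IsB μ i b)
    (hA : ∀ φ : C(M, ℝ), 0 < ∫ x, Real.exp (φ x) ∂μ) {n : ℕ} {p : Fin n → ℕ}
    (hp : Function.Injective p) {φ : C(M, ℝ)} (hp0 : ∀ l, p l ≠ 0 ∧ 0 < Ev a (b φ) (p l))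
    (hx : φ ∈ GoodS μ i a b (insert 0 (Finset.univ.image p))) :
    ∃ (D : C(M, ℝ) →L[ℝ] (Fin n → ℝ)) (κ : Fin n → C(M, ℝ)),
      HasStrictFDerivAt (Tu μ a b p) D φ ∧ ∀ m l, D (κ m) l = if m = l then 1 else 0 := by
  obtain ⟨hF, hb, -⟩ := forms μ i a b hS hB
  obtain ⟨e, E, hE⟩ := tSp H a (b φ) (hF _)
  have hmm : ∀ j, Ev a (b φ) j = E j := fun j =>
    Pool.Agent.Y592.QE.mm H a (b φ) (hF _) e E hE j
  obtain ⟨κ, hκ⟩ := dual hS hB (hx.2 e E hE) (ContinuousLinearMap.id ℝ C(M, ℝ))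
    (Function.Surjective.denseRange fun x => ⟨x, rfl⟩)
  simp only [ContinuousLinearMap.id_apply] at hκ
  have hmem : ∀ l, p l ∈ insert 0 (Finset.univ.image p) := fun l =>
    Finset.mem_insert_of_mem (Finset.mem_image_of_mem p (Finset.mem_univ l))
  choose L hL using fun j => pwC hS hB φ e j
  have hLκ0 : ∀ m, L 0 (κ (p m)) = 0 := fun m => by
    rw [hL, hκ _ (hmem m) 0 (Finset.mem_insert_self _ _), if_neg (hp0 m).1]
  have hLκ : ∀ l m, L (p l) (κ (p m)) = if m = l then 1 else 0 := fun l m => by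
    rw [hL, hκ _ (hmem m) _ (hmem l)]
    by_cases h : m = l
    · rw [h, if_pos rfl, if_pos rfl]
    · rw [if_neg h, if_neg fun h' => h (hp h')]
  obtain ⟨A, hAd⟩ : ∃ A : ℝ, A = ∫ y, Real.exp (φ y) ∂μ := ⟨_, rfl⟩
  have hA0 : 0 < A := by rw [hAd]; exact hA _
  refine ⟨ContinuousLinearMap.pi fun l => A • (-(E (p l)) • L (p l)) + Ev a (b φ) (p l) • L 0,
    fun m => (-(A * E (p m)))⁻¹ • κ (p m), ?_, fun m l => ?_⟩
  · rw [hasStrictFDerivAt_pi']
    intro l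
    have h1 := strict_ev hS hB hE (hp0 l).1 (hx.1 (p l) (hmem l) (hp0 l).1) (hL (p l))
    have h2 := strict_area (μ := μ) (i := i) (φ := φ) (e := e) (hL 0)
    have h3 := h2.mul h1
    rw [hAd]
    exact h3
  · have h1 : 0 < E (p m) := by rw [← hmm]; exact (hp0 m).2
    have h2 : A * E (p m) ≠ 0 := (mul_pos hA0 h1).ne'
    show A * (-(E (p l)) * L (p l) ((-(A * E (p m)))⁻¹ • κ (p m))) +
      Ev a (b φ) (p l) * L 0 ((-(A * E (p m)))⁻¹ • κ (p m)) = _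
    rw [map_smul, map_smul, hLκ, hLκ0, smul_eq_mul, smul_eq_mul]
    by_cases h : m = l
    · subst h
      rw [if_pos rfl]
      field_simp
      ring
    · rw [if_neg h]
      ring

/-- the conformal factors at which the levels are expanding in given directions -/
def Anti {n : ℕ} (G : C(M, ℝ) → (Fin n → ℝ)) (h : Fin n → C(M, ℝ)) (k : ℕ) : Set C(M, ℝ) :=
  {φ | ∀ s s' : Fin n → ℝ, ‖s‖ ≤ 1 / ((k : ℝ) + 1) → ‖s'‖ ≤ 1 / ((k : ℝ) + 1) →
    ‖s - s'‖ ≤ ((k : ℝ) + 1) * ‖G (φ + ∑ m, s m • h m) - G (φ + ∑ m, s' m • h m)‖}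

lemma anti_closed {n : ℕ} {G : C(M, ℝ) → (Fin n → ℝ)} (hG : Continuous G)
    (h : Fin n → C(M, ℝ)) (k : ℕ) : IsClosed (Anti G h k) := by
  have h1 : Anti G h k = ⋂ s : Fin n → ℝ, ⋂ s' : Fin n → ℝ,
      {φ | ‖s‖ ≤ 1 / ((k : ℝ) + 1) → ‖s'‖ ≤ 1 / ((k : ℝ) + 1) →
      ‖s - s'‖ ≤ ((k : ℝ) + 1) * ‖G (φ + ∑ m, s m • h m) - G (φ + ∑ m, s' m • h m)‖} := by
    ext φ
    simp only [Anti, mem_ofPred_eq, mem_iInter]
  rw [h1]
  refine isClosed_iInter fun s => isClosed_iInter fun s' => ?_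
  by_cases hs : ‖s‖ ≤ 1 / ((k : ℝ) + 1)
  · by_cases hs' : ‖s'‖ ≤ 1 / ((k : ℝ) + 1)
    · simp only [hs, hs', true_imp_iff]
      exact isClosed_le continuous_const (by fun_prop)
    · simp only [hs', false_imp_iff, imp_true_iff]
      exact isClosed_univ
  · simp only [hs, false_imp_iff]
    exact isClosed_univ

lemma anti_null {n : ℕ} {G : C(M, ℝ) → (Fin n → ℝ)}
    (h : Fin n → C(M, ℝ)) (k : ℕ) {N : Set (Fin n → ℝ)} (hN : volume N = 0) (φ : C(M, ℝ)) :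
    ∀ᵐ s : Fin n → ℝ, φ + ∑ m, s m • h m ∉ G ⁻¹' N ∩ Anti G h k := by
  rw [ae_iff]
  simp only [not_not]
  refine measure_null_of_locally_null _ fun t ht => ?_
  obtain ⟨-, ht⟩ := ht
  have hr : 0 < 1 / ((k : ℝ) + 1) := by positivity
  obtain ⟨g, hg⟩ : ∃ g : (Fin n → ℝ) → (Fin n → ℝ), g = fun s => G (φ + ∑ m, s m • h m) :=
    ⟨_, rfl⟩
  refine ⟨{s | dist s t ≤ 1 / ((k : ℝ) + 1) ∧ g s ∈ N}, ?_, ?_⟩
  · rw [mem_nhdsWithin]
    refine ⟨Metric.ball t (1 / ((k : ℝ) + 1)), Metric.isOpen_ball, Metric.mem_ball_self hr, ?_⟩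
    rintro s ⟨hs1, hs2⟩
    refine ⟨(Metric.mem_ball.1 hs1).le, ?_⟩
    rw [hg]
    exact hs2.1
  · refine null_of_anti (g := g) hN (fun s hs => hs.2) (Real.toNNReal ((k : ℝ) + 1)) ?_
    intro s hs s' hs'
    rw [Real.coe_toNNReal _ (by positivity)]
    have e1 : ∀ s : Fin n → ℝ, φ + ∑ m, s m • h m =
        (φ + ∑ m, t m • h m) + ∑ m, (s - t) m • h m := by
      intro s
      rw [add_assoc, ← Finset.sum_add_distrib]
      congr 1
      refine Finset.sum_congr rfl fun m _ => ?_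
      rw [Pi.sub_apply, ← add_smul]
      congr 1
      ring
    have h1 := ht (s - t) (s' - t) (by rw [← dist_eq_norm]; exact hs.1)
      (by rw [← dist_eq_norm]; exact hs'.1)
    rw [← e1, ← e1, sub_sub_sub_cancel_right] at h1
    rw [dist_eq_norm, dist_eq_norm, hg]
    exact h1

/-- a strictly differentiable map with surjective derivative is expanding in suitable directions -/
lemma anti_of_strict {n : ℕ} {G : C(M, ℝ) → (Fin n → ℝ)} {φ : C(M, ℝ)}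
    {D : C(M, ℝ) →L[ℝ] (Fin n → ℝ)} {κ : Fin n → C(M, ℝ)} (hD : HasStrictFDerivAt G D φ)
    (hκ : ∀ m l, D (κ m) l = if m = l then 1 else 0) {V : Set C(M, ℝ)} (hV : Dense V) :
    ∃ h : Fin n → V, ∃ k : ℕ, φ ∈ Anti G (fun m => (h m : C(M, ℝ))) k := by
  obtain ⟨ε, hε⟩ : ∃ ε : ℝ, ε = 1 / (2 * ((n : ℝ) + 1)) := ⟨_, rfl⟩
  have hε0 : 0 < ε := by rw [hε]; positivity
  have hch : ∀ m : Fin n, ∃ h : V, ‖D (h : C(M, ℝ)) - D (κ m)‖ < ε := by
    intro m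
    have h1 : D ⁻¹' Metric.ball (D (κ m)) ε ∈ 𝓝 (κ m) :=
      D.continuous.continuousAt.preimage_mem_nhds (Metric.ball_mem_nhds _ hε0)
    obtain ⟨y, hy1, hy2⟩ := mem_closure_iff_nhds.1 (hV (κ m)) _ h1
    refine ⟨⟨y, hy2⟩, ?_⟩
    have h2 := Metric.mem_ball.1 hy1
    rwa [dist_eq_norm] at h2
  choose h hh using hch
  refine ⟨h, ?_⟩
  -- the linear map is close to the identity
  have hlin : ∀ s : Fin n → ℝ, ‖D (∑ m, s m • (h m : C(M, ℝ))) - s‖ ≤ 1 / 2 * ‖s‖ := by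
    intro s
    have e1 : D (∑ m, s m • (h m : C(M, ℝ))) - s =
        ∑ m, s m • (D (h m : C(M, ℝ)) - D (κ m)) := by
      have e2 : ∑ m, s m • D (κ m) = s := by
        funext l
        rw [Finset.sum_apply]
        simp only [Pi.smul_apply, hκ, smul_eq_mul]
        simp
      rw [map_sum]
      simp only [map_smul, smul_sub, Finset.sum_sub_distrib, e2]
    rw [e1]
    calc ‖∑ m, s m • (D (h m : C(M, ℝ)) - D (κ m))‖ ≤
        ∑ m : Fin n, ‖s m • (D (h m : C(M, ℝ)) - D (κ m))‖ := norm_sum_le _ _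
      _ ≤ ∑ _m : Fin n, ‖s‖ * ε := by
          refine Finset.sum_le_sum fun m _ => ?_
          rw [norm_smul]
          exact mul_le_mul (norm_le_pi_norm s m) (hh m).le (norm_nonneg _) (norm_nonneg _)
      _ = (n : ℝ) * ε * ‖s‖ := by
          rw [Finset.sum_const, Finset.card_univ, Fintype.card_fin, nsmul_eq_mul]
          ring
      _ ≤ 1 / 2 * ‖s‖ := by
          refine mul_le_mul_of_nonneg_right ?_ (norm_nonneg _)
          rw [hε, mul_one_div, div_le_div_iff₀ (by positivity) (by norm_num)]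
          linarith
  obtain ⟨R, hR⟩ : ∃ R : ℝ, R = ∑ m, ‖(h m : C(M, ℝ))‖ := ⟨_, rfl⟩
  have hR0 : 0 ≤ R := by rw [hR]; positivity
  have hTn : ∀ s : Fin n → ℝ, ‖∑ m, s m • (h m : C(M, ℝ))‖ ≤ R * ‖s‖ := by
    intro s
    refine (norm_sum_le _ _).trans ?_
    rw [hR, Finset.sum_mul]
    refine Finset.sum_le_sum fun m _ => ?_
    rw [norm_smul, mul_comm]
    exact mul_le_mul_of_nonneg_left (norm_le_pi_norm s m) (norm_nonneg _)
  rw [hasStrictFDerivAt_iff_isLittleO, Asymptotics.isLittleO_iff] at hD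
  have h1 := hD (show (0 : ℝ) < 1 / (4 * (R + 1)) by positivity)
  rw [nhds_prod_eq, Metric.nhds_basis_ball.prod_self.eventually_iff] at h1
  obtain ⟨δ, hδ, hδ1⟩ := h1
  obtain ⟨k, hk⟩ := exists_nat_gt (max 4 ((R + 1) / δ))
  have hk4 : (4 : ℝ) < k := (le_max_left _ _).trans_lt hk
  have hkR : (R + 1) / δ < k := (le_max_right _ _).trans_lt hk
  refine ⟨k, fun s s' hs hs' => ?_⟩
  have hsmall : ∀ s : Fin n → ℝ, ‖s‖ ≤ 1 / ((k : ℝ) + 1) →
      φ + ∑ m, s m • (h m : C(M, ℝ)) ∈ Metric.ball φ δ := by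
    intro s hs
    rw [Metric.mem_ball, dist_eq_norm, add_sub_cancel_left]
    refine (hTn s).trans_lt ?_
    have h2 : R * ‖s‖ ≤ (R + 1) * (1 / ((k : ℝ) + 1)) :=
      mul_le_mul (by linarith) hs (norm_nonneg _) (by positivity)
    refine h2.trans_lt ?_
    rw [mul_one_div, div_lt_iff₀ (by positivity)]
    rw [div_lt_iff₀ hδ] at hkR
    nlinarith
  have h2 := hδ1 (mk_mem_prod (hsmall s hs) (hsmall s' hs'))
  simp only at h2
  have e1 : (φ + ∑ m, s m • (h m : C(M, ℝ))) - (φ + ∑ m, s' m • (h m : C(M, ℝ))) =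
      ∑ m, (s - s') m • (h m : C(M, ℝ)) := by
    rw [add_sub_add_left_eq_sub, ← Finset.sum_sub_distrib]
    refine Finset.sum_congr rfl fun m _ => ?_
    rw [Pi.sub_apply, sub_smul]
  rw [e1] at h2
  have h3 := hlin (s - s')
  have h4 : 1 / (4 * (R + 1)) * ‖∑ m, (s - s') m • (h m : C(M, ℝ))‖ ≤ 1 / 4 * ‖s - s'‖ := by
    calc 1 / (4 * (R + 1)) * ‖∑ m, (s - s') m • (h m : C(M, ℝ))‖ ≤
        1 / (4 * (R + 1)) * ((R + 1) * ‖s - s'‖) := by
          refine mul_le_mul_of_nonneg_left ((hTn _).trans ?_) (by positivity)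
          exact mul_le_mul_of_nonneg_right (by linarith) (norm_nonneg _)
      _ = 1 / 4 * ‖s - s'‖ := by field_simp
  set X := G (φ + ∑ m, s m • (h m : C(M, ℝ))) - G (φ + ∑ m, s' m • (h m : C(M, ℝ))) with hX
  set Y := D (∑ m, (s - s') m • (h m : C(M, ℝ))) with hY
  have h5 : ‖s - s'‖ ≤ ‖X‖ + ‖X - Y‖ + ‖Y - (s - s')‖ := by
    calc ‖s - s'‖ = ‖X - (X - Y) - (Y - (s - s'))‖ := by congr 1; abel
      _ ≤ ‖X - (X - Y)‖ + ‖Y - (s - s')‖ := norm_sub_le _ _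
      _ ≤ _ := by linarith [norm_sub_le X (X - Y)]
  have h6 : ‖s - s'‖ ≤ 4 * ‖X‖ := by linarith
  exact h6.trans (mul_le_mul_of_nonneg_right (by linarith) (norm_nonneg _))

/-- **the joint law of levels of a random conformal metric has a density** -/
theorem tu_null [MeasurableSpace C(M, ℝ)] [BorelSpace C(M, ℝ)] [CompleteSpace H] (hS : Sf μ i a)
    (hB : IsB μ i b) (hW : Wl μ a b) (hA : ∀ φ : C(M, ℝ), 0 < ∫ x, Real.exp (φ x) ∂μ)
    (P : Measure C(M, ℝ)) [IsProbabilityMeasure P] {V : Set C(M, ℝ)} (hVc : V.Countable)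
    (hV : Dense V) (hac : ∀ h ∈ V, ∀ t : ℝ, P.map (fun φ => φ + t • h) ≪ P)
    {Fa : Set ((M → ℝ) → ℝ)} (hFam : ∀ Ω ∈ Fa, ∃ h C w, Osc μ i a b Ω h C w)
    (htot : ∀ (φ : C(M, ℝ)) (e : ℕ → H) (c : ℕ → ℝ) (J' : Finset ℕ), (∀ Ω ∈ Fa,
      ∑ j ∈ J', c j * Ω (fun x => (i (e j) x) ^ 2) = 0) →
      ∀ h : C(M, ℝ), ∑ j ∈ J', c j * kap μ i h φ (e j) = 0) {n : ℕ} {p : Fin n → ℕ}
    (hp : Function.Injective p) (hp0 : ∀ l, p l ≠ 0 ∧ ∀ φ, 0 < Ev a (b φ) (p l))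
    {N : Set (Fin n → ℝ)} (hN : volume N = 0) :
    ∀ᵐ φ ∂P, Tu μ a b p φ ∉ N := by
  have hgood := good_ae hS hB hW hA P hVc hV hac hFam htot (Finset.univ.image p) (by
    intro j hj
    obtain ⟨l, -, rfl⟩ := Finset.mem_image.1 hj
    exact hp0 l)
  have hcont := tu_cont (μ := μ) (i := i) (a := a) (b := b) hS hB p
  set N' := toMeasurable volume N with hN'
  have hN'0 : volume N' = 0 := by rw [hN', measure_toMeasurable, hN]
  have hN'm : MeasurableSet N' := measurableSet_toMeasurable _ _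
  haveI : Countable V := hVc.to_subtype
  have hbad : ∀ᵐ φ ∂P, ∀ (h : Fin n → V) (k : ℕ),
      φ ∉ Tu μ a b p ⁻¹' N' ∩ Anti (Tu μ a b p) (fun m => (h m : C(M, ℝ))) k := by
    rw [ae_all_iff]
    intro h
    rw [ae_all_iff]
    intro k
    refine measure_eq_zero_iff_ae_notMem.1 ?_
    refine qn_n P (fun m => (h m : C(M, ℝ))) (fun m => hac _ (h m).2) ?_
      (fun φ => anti_null _ k hN'0 φ)
    exact (hcont.measurable hN'm).inter (anti_closed hcont _ k).measurableSet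
  filter_upwards [hgood, hbad] with φ h1 h2 h3
  obtain ⟨D, κ, hD, hκ⟩ := tu_strict hS hB hA hp (fun l => ⟨(hp0 l).1, (hp0 l).2 φ⟩) h1
  obtain ⟨h, k, hk⟩ := anti_of_strict hD hκ hV
  exact h2 h k ⟨subset_toMeasurable _ _ h3, hk⟩

end Pool.Agent.L5helper74.RJ
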