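import Pool.Agent.Q233.GLV.Indep
import Pool.Agent.Q233.RSP.Abs3

/-!
# Random metrics: the derivative of the relation along a sequence

Adapted from the library file GLV.Pt2: the direction and the test function are different, and the
relation is only known for a sequence of times.
-/

set_option autoImplicit false
set_option linter.unusedSectionVars false

open Set Filter Topology MeasureTheory
open Pool.Agent.Y262.QE Pool.Agent.Y264.QR Pool.Agent.Y319.QR Q101.QG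
open Pool.Agent.Q233.GLV

noncomputable section

namespace Pool.Agent.L5helper74.RJ

variable {M : Type} [MetricSpace M] [CompactSpace M] [MeasurableSpace M] [BorelSpace M]
  {μ : Measure M} [IsFiniteMeasure μ] {H : Type} [NormedAddCommGroup H] [InnerProductSpace ℝ H]
  {i : H →L[ℝ] Lp ℝ 2 μ} {a : H →L[ℝ] H →L[ℝ] ℝ} {b : C(M, ℝ) → H →L[ℝ] H →L[ℝ] ℝ}

/-- the derivative of the relation -/
theorem derrel2 [CompleteSpace H] (hS : Sf μ i a) (hB : IsB μ i b) {φ : C(M, ℝ)} {e : ℕ → H}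
    {E : ℕ → ℝ} (hE : Eg a (b φ) e E) {J : Finset ℕ} {j₀ : ℕ} (hJ0 : 0 ∈ J) (hj₀ : j₀ ∉ J)
    (hs : ∀ j ∈ insert j₀ J, j ≠ 0 → Sim a b φ j) {κ : ℕ → C(M, ℝ)}
    (hκ : ∀ l ∈ J, ∀ j ∈ J, pw μ i φ (κ l) e j = if l = j then 1 else 0) {γ : ℕ → ℝ}
    (hγ : ∀ h : C(M, ℝ), pw μ i φ h e j₀ = ∑ j ∈ J, γ j * pw μ i φ h e j)
    {g g' : C(M, ℝ)} (hg : ∀ j ∈ J, pw μ i φ g' e j = 0)
    (hdep : ∃ᶠ t in 𝓝[≠] (0 : ℝ), ∀ (e' : ℕ → H) (E' : ℕ → ℝ), Eg a (b (φ + t • g)) e' E' →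
      ∃ γ' : ℕ → ℝ, ∀ h : C(M, ℝ), pw μ i (φ + t • g) h e' j₀ =
        ∑ j ∈ J, γ' j * pw μ i (φ + t • g) h e' j)
    {s : ℕ → H} {ε₀ : ℝ} (hε₀ : 0 < ε₀)
    (hs1 : ∀ j ∈ insert j₀ J, j ≠ 0 → ∀ ψ, |E j * (kf b (g * ex φ) (e j) ψ -
      kf b (g * ex φ) (e j) (e j) * b φ (e j) ψ) - (a (s j) ψ - E j * b φ (s j) ψ)| ≤ ε₀ * ‖ψ‖)
    (hs2 : ∀ j ∈ insert j₀ J, j ≠ 0 →
      |2 * b φ (s j) (e j) + kf b (g * ex φ) (e j) (e j)| ≤ ε₀)
    {Kk : ℝ} (hKk0 : 0 ≤ Kk) (hKk : ∀ u w, |kf b (g * ex φ) u w| ≤ Kk * ‖u‖ * ‖w‖)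
    (hKk' : ∀ u w, |kf b (g' * ex φ) u w| ≤ Kk * ‖u‖ * ‖w‖) {Cc : ℕ → ℝ}
    (hCc0 : ∀ j, 0 < Cc j) (hCc : ∀ j ∈ insert j₀ J, j ≠ 0 → ∀ (g : H) (ε : ℝ), 0 ≤ ε →
      (∀ ψ, |a g ψ - E j * b φ g ψ| ≤ ε * ‖ψ‖) → ‖g‖ ≤ Cc j * (ε + |b φ g (e j)|)) :
    |kf b (g' * ex φ) (e j₀) (s j₀) -
      ∑ j ∈ J, (if j = 0 then 0 else γ j * kf b (g' * ex φ) (e j) (s j))| ≤
      Kk * ε₀ * (‖e j₀‖ * (2 * Cc j₀ + 1) + ∑ j ∈ J, |γ j| * (‖e j‖ * (2 * Cc j + 1))) := by
  obtain ⟨hF, hb, -⟩ := forms μ i a b hS hB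
  have hcont := (tLip M μ H a b hF hb).2.2.2.1
  have hmm : ∀ {ψ : C(M, ℝ)} {e' : ℕ → H} {E' : ℕ → ℝ}, Eg a (b ψ) e' E' →
      ∀ j, Ev a (b ψ) j = E' j := fun {ψ e' E'} h j =>
    Pool.Agent.Y592.QE.mm H a (b ψ) (hF ψ) e' E' h j
  have hj00 : j₀ ≠ 0 := fun h => hj₀ (h ▸ hJ0)
  obtain ⟨k, hk⟩ : ∃ k : H →L[ℝ] H →L[ℝ] ℝ, k = kf b (g * ex φ) := ⟨_, rfl⟩
  obtain ⟨k', hk'⟩ : ∃ k' : H →L[ℝ] H →L[ℝ] ℝ, k' = kf b (g' * ex φ) := ⟨_, rfl⟩
  rw [← hk] at hs1 hs2 hKk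
  rw [← hk'] at hKk' ⊢
  have hksymm : ∀ u w, k' u w = k' w u := fun u w => by rw [hk']; exact kf_symm hB _ u w
  -- the sequence
  have hsmall : ∀ᶠ t in 𝓝[≠] (0 : ℝ), t ≠ 0 ∧ |t| * ‖g‖ ≤ 1 := by
    refine (eventually_mem_nhdsWithin).and (mem_nhdsWithin_of_mem_nhds ?_)
    have h1 : Tendsto (fun t : ℝ => |t| * ‖g‖) (𝓝 0) (𝓝 0) := by
      have h2 : Continuous fun t : ℝ => |t| * ‖g‖ := by fun_prop
      have h3 := h2.tendsto 0
      rwa [abs_zero, zero_mul] at h3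
    filter_upwards [h1.eventually (eventually_lt_nhds one_pos)] with t ht
    exact ht.le
  obtain ⟨t, htt, htpr⟩ := exists_seq_forall_of_frequently (hdep.and_eventually hsmall)
  have htp : ∀ m, t m ≠ 0 := fun m => (htpr m).2.1
  have ht0 : Tendsto t atTop (𝓝 0) := htt.mono_right nhdsWithin_le_nhds
  have hta : Tendsto (fun m => |t m|) atTop (𝓝 0) := by
    have := ht0.abs
    rwa [abs_zero] at this
  have htg : ∀ m, |t m| * ‖g‖ ≤ 1 := fun m => (htpr m).2.2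
  choose es Es hEs using fun m : ℕ => tSp H a (b (φ + t m • g)) (hF _)
  choose γs hγs using fun m : ℕ => (htpr m).1 (es m) (Es m) (hEs m)
  have hφs : Tendsto (fun m => φ + t m • g) atTop (𝓝 φ) := by
    have h1 : Continuous fun τ : ℝ => φ + τ • g := by fun_prop
    have h2 := h1.tendsto 0
    rw [zero_smul, add_zero] at h2
    exact h2.comp ht0
  have hgam : ∀ l ∈ J, Tendsto (fun m => γs m l) atTop (𝓝 (γ l)) := fun l hl =>
    gam hS hB hE hs hκ hγ hφs hEs hγs hl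
  -- the forms
  obtain ⟨R, hR⟩ : ∃ R : ℝ, R = ‖g‖ ^ 2 * ‖ex φ‖ := ⟨_, rfl⟩
  have hR0 : 0 ≤ R := by rw [hR]; positivity
  have hform : ∀ m u w, |b (φ + t m • g) u w - b φ u w - t m * k u w| ≤
      R * (t m) ^ 2 * ‖u‖ * ‖w‖ := fun m u w => by
    rw [hR, hk]
    exact form_exp hS hB φ g (htg m) u w
  obtain ⟨δ, hδ⟩ : ∃ δ : ℕ → ℝ, δ = fun m => R * (t m) ^ 2 + |t m| * Kk := ⟨_, rfl⟩
  have hδ0 : ∀ m, 0 ≤ δ m := fun m => by rw [hδ]; positivity
  have hδt : Tendsto δ atTop (𝓝 0) := by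
    rw [hδ]
    have h1 := ((ht0.pow 2).const_mul R).add (hta.mul_const Kk)
    simpa using h1
  have hform2 : ∀ m u w, |b (φ + t m • g) u w - b φ u w| ≤ δ m * ‖u‖ * ‖w‖ := by
    intro m u w
    have h1 := hform m u w
    have h2 : |t m * k u w| ≤ |t m| * (Kk * ‖u‖ * ‖w‖) := by
      rw [abs_mul]
      exact mul_le_mul_of_nonneg_left (hKk u w) (abs_nonneg _)
    calc |b (φ + t m • g) u w - b φ u w| =
        |(b (φ + t m • g) u w - b φ u w - t m * k u w) + t m * k u w| := by ring_nf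
      _ ≤ |b (φ + t m • g) u w - b φ u w - t m * k u w| + |t m * k u w| := abs_add_le _ _
      _ ≤ R * (t m) ^ 2 * ‖u‖ * ‖w‖ + |t m| * (Kk * ‖u‖ * ‖w‖) := add_le_add h1 h2
      _ = δ m * ‖u‖ * ‖w‖ := by rw [hδ]; ring
  -- the eigenvectors
  have hconv : ∀ j ∈ insert j₀ J, j ≠ 0 → ∃ σ : ℕ → ℝ, (∀ m, σ m = 1 ∨ σ m = -1) ∧
      Tendsto (fun m => σ m • es m j) atTop (𝓝 (e j)) := by
    intro j hj hj0
    refine conv (hF φ) hE (fun l hl => ?_) hδ0 hδt hform2 (Es := fun m => Es m j) ?_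
      (vs := fun m => es m j) (fun m => ⟨fun w => (hEs m).eig j w, by rw [(hEs m).orth, if_pos rfl]⟩)
    · have := hs j hj hj0 l hl
      rwa [hmm hE, hmm hE] at this
    · have h1 := ((hcont j).tendsto φ).comp hφs
      rw [hmm hE] at h1
      refine h1.congr fun m => ?_
      exact hmm (hEs m) j
  choose! σ hσ1 hσ2 using hconv
  have hσsq : ∀ j ∈ insert j₀ J, j ≠ 0 → ∀ m, σ j m * σ j m = 1 := by
    intro j hj hj0 m
    rcases hσ1 j hj hj0 m with h | h <;> rw [h] <;> norm_num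
  obtain ⟨q, hq⟩ : ∃ q : ℕ → ℕ → H, q = fun j m => (t m)⁻¹ • (σ j m • es m j - e j) := ⟨_, rfl⟩
  have hquot : ∀ j ∈ insert j₀ J, j ≠ 0 → ∀ᶠ m in atTop,
      ‖q j m - s j‖ ≤ Cc j * (2 * ε₀) + ε₀ := by
    intro j hj hj0
    have h1 := quot (hF φ) hE (hCc0 j) (hCc j hj hj0) ht0 htp
      (bs := fun m => b (φ + t m • g)) k hR0 hform (Es := fun m => Es m j)
      (vs := fun m => σ j m • es m j) (fun m => by
        have h2 : EV a (b (φ + t m • g)) (Es m j) (es m j) :=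
          ⟨fun w => (hEs m).eig j w, by rw [(hEs m).orth, if_pos rfl]⟩
        rcases hσ1 j hj hj0 m with h | h
        · rw [h, one_smul]; exact h2
        · rw [h, neg_smul, one_smul]; exact ev_neg h2) (hσ2 j hj hj0) hε₀.le (hs1 j hj hj0)
      (hs2 j hj hj0) hε₀
    rw [hq]
    exact h1
  -- values of the form
  have hk0 : ∀ j ∈ insert j₀ J, j ≠ 0 → k' (e j) (e j) = 0 := by
    intro j hj hj0
    have h1 : pw μ i φ g' e j = k' (e j) (e j) := by
      unfold pw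
      rw [if_neg hj0, kap_kf hB, hk']
    rw [← h1]
    rcases Finset.mem_insert.1 hj with h | h
    · rw [h, hγ]
      exact Finset.sum_eq_zero fun l hl => by rw [hg l hl, mul_zero]
    · exact hg j h
  obtain ⟨Af, hAf⟩ : ∃ Af : ℕ → ℕ → ℝ, Af = fun j m => 2 * k' (e j) (q j m) +
    t m * k' (q j m) (q j m) := ⟨_, rfl⟩
  have hval : ∀ j ∈ insert j₀ J, j ≠ 0 → ∀ m, k' (es m j) (es m j) = t m * Af j m := by
    intro j hj hj0 m
    have h1 : σ j m • es m j = e j + t m • q j m := by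
      rw [hq]
      simp only
      rw [smul_smul, mul_inv_cancel₀ (htp m), one_smul]
      abel
    have h2 : k' (σ j m • es m j) (σ j m • es m j) = k' (es m j) (es m j) := by
      simp only [map_smul, _root_.smul_apply, smul_eq_mul]
      rw [← mul_assoc, hσsq j hj hj0 m, one_mul]
    rw [← h2, h1, hAf]
    simp only [map_add, map_smul, _root_.add_apply, _root_.smul_apply, smul_eq_mul,
      hk0 j hj hj0, hksymm (q j m) (e j)]
    ring
  have hrel : ∀ m, Af j₀ m = ∑ j ∈ J, (if j = 0 then 0 else γs m j * Af j m) := by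
    intro m
    have h1 := hγs m (g' * ex (-(t m • g)))
    have hw : g' * ex (-(t m • g)) * ex (φ + t m • g) = g' * ex φ := by
      ext x
      simp only [Pool.Agent.Q233.GLV.ex, ContinuousMap.mul_apply, ContinuousMap.coe_mk, ContinuousMap.add_apply,
        ContinuousMap.neg_apply, ContinuousMap.smul_apply, smul_eq_mul]
      rw [mul_assoc, ← Real.exp_add]
      congr 2
      ring
    have h2 : ∀ j, j ≠ 0 → pw μ i (φ + t m • g) (g' * ex (-(t m • g))) (es m) j =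
        k' (es m j) (es m j) := by
      intro j hj
      unfold pw
      rw [if_neg hj, kap_kf hB, hw, hk']
    have h3 : pw μ i (φ + t m • g) (g' * ex (-(t m • g))) (es m) 0 = 0 := by
      have h4 := hg 0 hJ0
      unfold pw at h4 ⊢
      rw [if_pos rfl] at h4 ⊢
      rw [← h4]
      refine integral_congr_ae (Eventually.of_forall fun x => ?_)
      have h5 := congrArg (fun f : C(M, ℝ) => f x) hw
      simp only [ContinuousMap.mul_apply] at h5
      exact h5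
    rw [h2 j₀ hj00, hval j₀ (Finset.mem_insert_self _ _) hj00] at h1
    have h4 : ∑ j ∈ J, γs m j * pw μ i (φ + t m • g) (g' * ex (-(t m • g))) (es m) j =
        t m * ∑ j ∈ J, (if j = 0 then 0 else γs m j * Af j m) := by
      rw [Finset.mul_sum]
      refine Finset.sum_congr rfl fun j hj => ?_
      split_ifs with hj0
      · rw [hj0, h3]; ring
      · rw [h2 j hj0, hval j (Finset.mem_insert_of_mem hj) hj0]; ring
    rw [h4] at h1
    exact mul_left_cancel₀ (htp m) h1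
  -- the estimate
  obtain ⟨rr, hrr⟩ : ∃ rr : ℕ → ℝ, rr = fun j => Cc j * (2 * ε₀) + ε₀ := ⟨_, rfl⟩
  have hrr0 : ∀ j, 0 ≤ rr j := fun j => by
    rw [hrr]
    have := hCc0 j
    positivity
  obtain ⟨ρ, hρ⟩ : ∃ ρ : ℕ → ℕ → ℝ, ρ = fun j m => 2 * (Kk * ‖e j‖ * rr j) +
    |t m| * (Kk * (‖s j‖ + rr j) * (‖s j‖ + rr j)) := ⟨_, rfl⟩
  have hρ0 : ∀ j m, 0 ≤ ρ j m := fun j m => by
    rw [hρ]
    have := hrr0 j
    positivity
  have hest : ∀ j ∈ insert j₀ J, j ≠ 0 → ∀ᶠ m in atTop, |Af j m - 2 * k' (e j) (s j)| ≤ ρ j m := by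
    intro j hj hj0
    filter_upwards [hquot j hj hj0] with m hm
    have hm' : ‖q j m - s j‖ ≤ rr j := by rw [hrr]; exact hm
    have h1 : ‖q j m‖ ≤ ‖s j‖ + rr j := by
      calc ‖q j m‖ = ‖s j + (q j m - s j)‖ := by congr 1; abel
        _ ≤ ‖s j‖ + ‖q j m - s j‖ := norm_add_le _ _
        _ ≤ _ := by linarith
    have h2 : Af j m - 2 * k' (e j) (s j) = 2 * k' (e j) (q j m - s j) +
        t m * k' (q j m) (q j m) := by
      rw [hAf]
      simp only [map_sub]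
      ring
    rw [h2, hρ]
    refine (abs_add_le _ _).trans (add_le_add ?_ ?_)
    · rw [abs_mul, abs_two]
      refine mul_le_mul_of_nonneg_left ((hKk' _ _).trans ?_) (by norm_num)
      exact mul_le_mul_of_nonneg_left hm' (by positivity)
    · rw [abs_mul]
      refine mul_le_mul_of_nonneg_left ((hKk' _ _).trans ?_) (abs_nonneg _)
      have := hrr0 j
      exact mul_le_mul (mul_le_mul_of_nonneg_left h1 hKk0) h1 (norm_nonneg _) (by positivity)
  have hall : ∀ᶠ m in atTop, ∀ j ∈ insert j₀ J, j ≠ 0 →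
      |Af j m - 2 * k' (e j) (s j)| ≤ ρ j m := by
    rw [Finset.eventually_all]
    intro j hj
    by_cases hj0 : j = 0
    · exact Eventually.of_forall fun m h => absurd hj0 h
    · filter_upwards [hest j hj hj0] with m hm _
      exact hm
  have hfin : ∀ᶠ m in atTop, |2 * k' (e j₀) (s j₀) -
      ∑ j ∈ J, (if j = 0 then 0 else γ j * (2 * k' (e j) (s j)))| ≤
      ρ j₀ m + ∑ j ∈ J, (|γs m j - γ j| * (|2 * k' (e j) (s j)| + ρ j m) + |γ j| * ρ j m) := by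
    filter_upwards [hall] with m hm
    have h1 := hm j₀ (Finset.mem_insert_self _ _) hj00
    have h2 : 2 * k' (e j₀) (s j₀) - ∑ j ∈ J, (if j = 0 then 0 else γ j * (2 * k' (e j) (s j))) =
        -(Af j₀ m - 2 * k' (e j₀) (s j₀)) + ∑ j ∈ J, ((if j = 0 then 0 else γs m j * Af j m) -
          (if j = 0 then 0 else γ j * (2 * k' (e j) (s j)))) := by
      rw [Finset.sum_sub_distrib, ← hrel m]
      ring
    rw [h2]
    refine (abs_add_le _ _).trans (add_le_add (by rw [abs_neg]; exact h1) ?_)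
    refine (Finset.abs_sum_le_sum_abs _ _).trans (Finset.sum_le_sum fun j hj => ?_)
    by_cases hj0 : j = 0
    · rw [if_pos hj0, if_pos hj0, sub_zero, abs_zero]
      have := hρ0 j m
      positivity
    · rw [if_neg hj0, if_neg hj0]
      have h3 := hm j (Finset.mem_insert_of_mem hj) hj0
      have h4 : γs m j * Af j m - γ j * (2 * k' (e j) (s j)) = (γs m j - γ j) * Af j m +
          γ j * (Af j m - 2 * k' (e j) (s j)) := by ring
      have h5 : |Af j m| ≤ |2 * k' (e j) (s j)| + ρ j m := by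
        calc |Af j m| = |2 * k' (e j) (s j) + (Af j m - 2 * k' (e j) (s j))| := by ring_nf
          _ ≤ |2 * k' (e j) (s j)| + |Af j m - 2 * k' (e j) (s j)| := abs_add_le _ _
          _ ≤ _ := by linarith
      rw [h4]
      refine (abs_add_le _ _).trans (add_le_add ?_ ?_)
      · rw [abs_mul]
        exact mul_le_mul_of_nonneg_left h5 (abs_nonneg _)
      · rw [abs_mul]
        exact mul_le_mul_of_nonneg_left h3 (abs_nonneg _)
  have hρt : ∀ j, Tendsto (fun m => ρ j m) atTop (𝓝 (2 * (Kk * ‖e j‖ * rr j))) := by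
    intro j
    rw [hρ]
    have := (hta.mul_const (Kk * (‖s j‖ + rr j) * (‖s j‖ + rr j))).const_add
      (2 * (Kk * ‖e j‖ * rr j))
    rwa [zero_mul, add_zero] at this
  have hlim : Tendsto (fun m => ρ j₀ m + ∑ j ∈ J, (|γs m j - γ j| * (|2 * k' (e j) (s j)| + ρ j m) +
      |γ j| * ρ j m)) atTop (𝓝 (2 * (Kk * ‖e j₀‖ * rr j₀) +
        ∑ j ∈ J, |γ j| * (2 * (Kk * ‖e j‖ * rr j)))) := by
    refine (hρt j₀).add (tendsto_finsetSum _ fun j hj => ?_)
    have h1 : Tendsto (fun m => |γs m j - γ j|) atTop (𝓝 0) := by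
      have := ((hgam j hj).sub_const (γ j)).abs
      rwa [sub_self, abs_zero] at this
    have h2 := (h1.mul ((hρt j).const_add |2 * k' (e j) (s j)|)).add ((hρt j).const_mul |γ j|)
    rwa [zero_mul, zero_add] at h2
  have h1 := ge_of_tendsto hlim hfin
  have h2 : 2 * k' (e j₀) (s j₀) - ∑ j ∈ J, (if j = 0 then 0 else γ j * (2 * k' (e j) (s j))) =
      2 * (k' (e j₀) (s j₀) - ∑ j ∈ J, (if j = 0 then 0 else γ j * k' (e j) (s j))) := by
    rw [mul_sub, Finset.mul_sum]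
    congr 1
    refine Finset.sum_congr rfl fun j _ => ?_
    split_ifs
    · ring
    · ring
  rw [h2, abs_mul, abs_two] at h1
  have h3 : 2 * (Kk * ‖e j₀‖ * rr j₀) + ∑ j ∈ J, |γ j| * (2 * (Kk * ‖e j‖ * rr j)) =
      2 * (Kk * ε₀ * (‖e j₀‖ * (2 * Cc j₀ + 1) + ∑ j ∈ J, |γ j| * (‖e j‖ * (2 * Cc j + 1)))) := by
    rw [mul_add (Kk * ε₀), mul_add, Finset.mul_sum, Finset.mul_sum]
    congr 1
    · rw [hrr]; ring
    · refine Finset.sum_congr rfl fun j _ => ?_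
      rw [hrr]; ring
  rw [h3] at h1
  linarith

end Pool.Agent.L5helper74.RJ
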