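import Pool.Agent.L5helper74.RJ.Joint
import Pool.Agent.L5helper74.RM.Surf

/-!
# Random metrics on surfaces: the joint law of the unfolded levels
-/

set_option autoImplicit false

open Set Filter Topology MeasureTheory
open scoped Real
open Pool.Agent.Y262.QE Pool.Agent.Y264.QR Pool.Agent.Y319.QR Q101.QG
open Pool.Agent.Q233.GLV

noncomputable section

namespace Pool.Agent.L5helper74.RJ

/-- for a null set `N`, almost surely no tuple of positive normalized eigenvalues is in `N` -/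
theorem ptop3 {M : Type} [MetricSpace M] [CompactSpace M] [MeasurableSpace M] [BorelSpace M]
    [Nonempty M] (μ : Measure M) (D : Data M) (hD : D.IsSurf μ)
    (hiso : ∀ i, ∀ z ∈ D.T i, ∃ c : ℝ, ∀ v, ‖D.A i z v‖ = c * ‖v‖)
    [MeasurableSpace C(M, ℝ)] [BorelSpace C(M, ℝ)] (P : Measure C(M, ℝ)) [IsProbabilityMeasure P]
    (hac : Dense {h : C(M, ℝ) | ∀ t : ℝ, P.map (fun φ => φ + t • h) ≪ P}) :
    ∃ E : ℕ → C(M, ℝ) → ℝ, (∀ j, Continuous (E j)) ∧ (∀ φ : C(M, ℝ), 0 < ∫ x, Real.exp (φ x) ∂μ) ∧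
      (∀ j, (∀ φ, E j φ = 0) ∨ ∀ φ, 0 < E j φ) ∧
      (∀ (φ : C(M, ℝ)) (u : ℕ → M → ℝ) (lam : ℕ → ℝ),
        EigBasis (D.conf fun y => Real.exp (φ y)) (wm μ fun y => Real.exp (φ y)) u lam →
        ∀ j, lam j = E j φ) ∧
      ∀ (n : ℕ) (N : Set (Fin n → ℝ)), volume N = 0 → ∀ p : Fin n → ℕ, Function.Injective p →
        (∀ l φ, 0 < E (p l) φ) →
        ∀ᵐ φ ∂P, (fun l => (∫ x, Real.exp (φ x) ∂μ) * E (p l) φ) ∉ N := by
  obtain ⟨hf, -⟩ := tFin M μ D hD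
  haveI := hf
  haveI : CompleteSpace (HF D μ) := by
    unfold HF
    exact (Submodule.isClosed_topologicalClosure _).completeSpace_coe
  obtain ⟨i, a, hSf, hi, ha⟩ := tPackF M μ D hD inferInstance
  obtain ⟨b, hB, hF, hpos, hcmp, -⟩ := tFm M μ (HF D μ) i a hSf
  have hW := tWl M μ D hD inferInstance i a b hSf hi ha hB
  obtain ⟨hnn, -, -, hcont, hdich⟩ := tLip M μ (HF D μ) a b hF hcmp
  have hEv0 : ∀ φ, Ev a (b φ) 0 = 0 := by
    intro φ
    obtain ⟨e, E, hE⟩ := tSp (HF D μ) a (b φ) (hF φ)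
    rw [Pool.Agent.Y592.QE.mm _ a (b φ) (hF φ) e E hE 0]
    exact lam_zero hD hSf hi ha hB hF (hpos φ) hE
  have hFam := fam_osc hD hiso hSf hi ha hB
  have htot : ∀ (φ : C(M, ℝ)) (e : ℕ → HF D μ) (c : ℕ → ℝ) (J' : Finset ℕ), (∀ Ω ∈ Fam D,
      ∑ j ∈ J', c j * Ω (fun x => (i (e j) x) ^ 2) = 0) →
      ∀ h : C(M, ℝ), ∑ j ∈ J', c j * kap μ i h φ (e j) = 0 :=
    fun φ e c J' h0 h => fam_tot hD φ e c J' h0 h
  obtain ⟨V, hVs, hVc, hV⟩ := hac.exists_countable_dense_subset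
  refine ⟨fun j φ => Ev a (b φ) j, hcont, hpos, hdich, fun φ u lam hu j => ?_,
    fun n N hN p hp hp0 => ?_⟩
  · obtain ⟨e', -, he'⟩ := tBr M μ D hD i a b hSf hi ha hB hF φ u lam hu
    exact (Pool.Agent.Y592.QE.mm _ a (b φ) (hF φ) e' lam he' j).symm
  · have h0 : ∀ l, p l ≠ 0 ∧ ∀ φ, 0 < Ev a (b φ) (p l) := by
      intro l
      refine ⟨fun h => ?_, hp0 l⟩
      have h1 : 0 < Ev a (b (0 : C(M, ℝ))) (p l) := hp0 l 0
      rw [h, hEv0] at h1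
      exact lt_irrefl _ h1
    exact tu_null hSf hB hW hpos P hVc hV (fun h hh => hVs hh) hFam htot hp h0 hN

end Pool.Agent.L5helper74.RJ
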